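import Mathlib
import Pool.Agent.H2.Hull
import Pool.Agent.H2.FreeLength
import Pool.Agent.H2.Twist

/-!
# A point of closed Outer space which is not determined by finitely many translation lengths

For every `N ≥ 2` we construct a point `T` of the closure of unprojectivised Outer space of rank
`N` such that no finite set `S` of elements of the free group `F_N` pins down `T`: for every finite
`S` there is another point `T'` of the closure with the same translation lengths on `S`.

The tree `T` is the Bass-Serre tree of the splitting `F_N = A * ⟨t⟩` as an HNN extension of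
`A = ⟨a, …⟩` over the trivial group: `A` fixes a point and `t` translates it by distance one. The
tree `T'` is, for `n` large, the Bass-Serre tree of the free splitting `F_N = A * ⟨t a⁻ⁿ⟩` with
edges of length `1/2`.
-/

namespace Pool.Agent.Results.MP_93ccfe_al.NoFinitePinning

open Set

/-! ### Definitions -/

/-- A real tree: a non-empty geodesic metric space which is `0`-hyperbolic (four point
condition). -/
structure IsRTree (X : Type) [MetricSpace X] : Prop where
  /-- the space is not empty -/
  nonempty : Nonempty X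
  /-- any two points are joined by an isometrically embedded interval -/
  geodesic : ∀ x y : X, ∃ γ : ℝ → X, γ 0 = x ∧ γ (dist x y) = y ∧
    ∀ s ∈ Icc (0 : ℝ) (dist x y), ∀ t ∈ Icc (0 : ℝ) (dist x y), dist (γ s) (γ t) = |s - t|
  /-- four point condition -/
  four_point : ∀ x y z w : X,
    dist x y + dist z w ≤ max (dist x z + dist y w) (dist x w + dist y z)

/-- The point `y` lies on the segment `[x, z]`. -/
def Between {X : Type} [MetricSpace X] (x y z : X) : Prop := dist x y + dist y z = dist x z

/-- A subgroup is maximal cyclic: it is cyclic and every cyclic subgroup containing it is equal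
to it. -/
def IsMaximalCyclic {G : Type} [Group G] (H : Subgroup G) : Prop :=
  ∃ c : G, H = Subgroup.zpowers c ∧
    ∀ d : G, Subgroup.zpowers c ≤ Subgroup.zpowers d → Subgroup.zpowers d = Subgroup.zpowers c

/-- A point of the closure of unprojectivised Outer space of rank `N`: a minimal, nontrivial,
very small isometric action of the free group of rank `N` on a real tree. -/
structure ClosedOuterPoint (N : ℕ) where
  /-- the tree -/
  X : Type
  /-- its metric -/
  [metric : MetricSpace X]
  /-- the action of the free group of rank `N` -/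
  [action : MulAction (FreeGroup (Fin N)) X]
  /-- the space is a real tree -/
  isRTree : IsRTree X
  /-- the action is by isometries -/
  isometric : ∀ (g : FreeGroup (Fin N)) (x y : X), dist (g • x) (g • y) = dist x y
  /-- the action is minimal: there is no proper non-empty invariant subtree (convex subset) -/
  minimal : ∀ Y : Set X, Y.Nonempty → (∀ g : FreeGroup (Fin N), ∀ y ∈ Y, g • y ∈ Y) →
    (∀ x ∈ Y, ∀ z ∈ Y, ∀ y, Between x y z → y ∈ Y) → Y = univ
  /-- there is no global fixed point -/
  nontrivial : ¬ ∃ x : X, ∀ g : FreeGroup (Fin N), g • x = x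
  /-- stabilisers of nondegenerate arcs `[x, y]` are trivial or maximal cyclic -/
  arcs : ∀ x y : X, x ≠ y →
    MulAction.stabilizer (FreeGroup (Fin N)) x ⊓ MulAction.stabilizer (FreeGroup (Fin N)) y = ⊥ ∨
    IsMaximalCyclic
      (MulAction.stabilizer (FreeGroup (Fin N)) x ⊓ MulAction.stabilizer (FreeGroup (Fin N)) y)
  /-- stabilisers of tripods (spanned by three points not on a segment) are trivial -/
  tripods : ∀ x y z : X, ¬ Between x y z → ¬ Between y z x → ¬ Between z x y →
    MulAction.stabilizer (FreeGroup (Fin N)) x ⊓ MulAction.stabilizer (FreeGroup (Fin N)) y ⊓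
      MulAction.stabilizer (FreeGroup (Fin N)) z = ⊥

attribute [instance] ClosedOuterPoint.metric ClosedOuterPoint.action

namespace ClosedOuterPoint

variable {N : ℕ}

/-- The translation length of `g` on the tree `T`. -/
noncomputable def len (T : ClosedOuterPoint N) (g : FreeGroup (Fin N)) : ℝ :=
  ⨅ x : T.X, dist x (g • x)

/-- Two points of the closure are equal when there is an equivariant isometry. -/
def Same (T T' : ClosedOuterPoint N) : Prop :=
  ∃ e : T.X ≃ᵢ T'.X, ∀ (g : FreeGroup (Fin N)) (x : T.X), e (g • x) = g • e x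

/-- The set `S` pins down `T`: every point of the closure with the same translation lengths on `S`
is equal to `T`. -/
def PinsDown (S : Set (FreeGroup (Fin N))) (T : ClosedOuterPoint N) : Prop :=
  ∀ T' : ClosedOuterPoint N, (∀ g ∈ S, T'.len g = T.len g) → Same T' T

/-- Equal points have the same translation length function. -/
theorem Same.len_eq {T T' : ClosedOuterPoint N} (h : Same T T') (g : FreeGroup (Fin N)) :
    T.len g = T'.len g := by
  obtain ⟨e, he⟩ := h
  exact Function.Surjective.iInf_congr e e.surjective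
    (fun x => by rw [← he, e.isometry.dist_eq])

end ClosedOuterPoint

/-! ### Translation lengths in real trees -/

section RTree

variable {X : Type} [MetricSpace X]

theorem between_or (hX : IsRTree X) {x p y : X} (h : Between x p y) (q : X) :
    Between x p q ∨ Between q p y := by
  unfold Between at *
  have h1 := hX.four_point x y p q
  have h2 := dist_triangle x p q
  have h3 := dist_triangle q p y
  have h4 : dist q y = dist y q := dist_comm _ _
  have h5 : dist q p = dist p q := dist_comm _ _
  have h6 : dist p y = dist y p := dist_comm _ _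
  rcases le_max_iff.1 h1 with h1 | h1
  · right; linarith
  · left; linarith

variable {G : Type} [Group G] [MulAction G X]

theorem dist_pow_le (hG : ∀ (g : G) (x y : X), dist (g • x) (g • y) = dist x y) (g : G) (y : X)
    (k : ℕ) : dist y (g ^ k • y) ≤ k * dist y (g • y) := by
  induction k with
  | zero => simp
  | succ k ih =>
    have h1 := dist_triangle y (g ^ k • y) (g ^ (k + 1) • y)
    have h2 : dist (g ^ k • y) (g ^ (k + 1) • y) = dist y (g • y) := by
      rw [pow_succ, mul_smul, hG]
    push_cast
    linarith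

theorem dist_pow_eq (hX : IsRTree X)
    (hG : ∀ (g : G) (x y : X), dist (g • x) (g • y) = dist x y) (g : G) (x : X)
    (h : dist x (g • x) < dist x (g • g • x)) (k : ℕ) :
    dist x (g ^ (k + 1) • x) =
      dist x (g • x) + k * (dist x (g • g • x) - dist x (g • x)) := by
  induction k using Nat.strong_induction_on with
  | _ k ih =>
  rcases k with _ | _ | k
  · simp
  · simp only [zero_add, Nat.cast_one, one_mul]
    rw [pow_succ, pow_one, mul_smul]
    ring
  · have i0 := ih k (by omega)
    have i1 := ih (k + 1) (by omega)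
    set a1 := dist x (g • x) with ha1
    set c := dist x (g • g • x) - a1 with hc
    have hc0 : 0 < c := by linarith
    have e1 : dist (g ^ (k + 1 + 1) • x) (g ^ (k + 1 + 1 + 1) • x) = a1 := by
      rw [pow_succ g (k + 1 + 1), mul_smul, hG]
    have e2 : dist (g • x) (g ^ (k + 1 + 1 + 1) • x) = dist x (g ^ (k + 1 + 1) • x) := by
      rw [pow_succ' g (k + 1 + 1), mul_smul, hG]
    have e3 : dist (g • x) (g ^ (k + 1 + 1) • x) = dist x (g ^ (k + 1) • x) := by
      rw [pow_succ' g (k + 1), mul_smul, hG]
    have f1 := hX.four_point x (g ^ (k + 1 + 1) • x) (g • x) (g ^ (k + 1 + 1 + 1) • x)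
    have f2 := hX.four_point x (g ^ (k + 1 + 1 + 1) • x) (g • x) (g ^ (k + 1 + 1) • x)
    rw [dist_comm (g ^ (k + 1 + 1) • x) (g • x)] at f1
    rw [dist_comm (g ^ (k + 1 + 1 + 1) • x) (g • x),
      dist_comm (g ^ (k + 1 + 1 + 1) • x) (g ^ (k + 1 + 1) • x)] at f2
    rw [e1, e2, e3] at f1 f2
    rw [← ha1, i0, i1] at f1 f2
    have hk : (0 : ℝ) ≤ k := Nat.cast_nonneg k
    have hkc : 0 ≤ (k : ℝ) * c := mul_nonneg hk hc0.le
    push_cast at *
    rcases le_max_iff.1 f1 with f1 | f1
    · exfalso; nlinarith
    · rcases le_max_iff.1 f2 with f2 | f2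
      · exfalso; nlinarith
      · linarith

/-- Lower bound for the displacement in terms of the displacements of one point under an element
and its square. -/
theorem le_dist_smul (hX : IsRTree X)
    (hG : ∀ (g : G) (x y : X), dist (g • x) (g • y) = dist x y) (g : G) (x y : X) :
    max 0 (dist x (g • g • x) - dist x (g • x)) ≤ dist y (g • y) := by
  refine max_le dist_nonneg ?_
  by_contra hcon
  rw [not_le] at hcon
  set c := dist x (g • g • x) - dist x (g • x) with hc
  have hpos : dist x (g • x) < dist x (g • g • x) := by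
    have := dist_nonneg (x := y) (y := g • y)
    linarith
  obtain ⟨k, hk⟩ := exists_nat_gt ((2 * dist x y + dist y (g • y)) / (c - dist y (g • y)))
  have hcd : 0 < c - dist y (g • y) := by linarith
  rw [div_lt_iff₀ hcd] at hk
  have h1 := dist_pow_eq hX hG g x hpos k
  have h2 := dist_pow_le hG g y (k + 1)
  have h3 := dist_triangle x y (g ^ (k + 1) • x)
  have h4 := dist_triangle y (g ^ (k + 1) • y) (g ^ (k + 1) • x)
  have h5 : dist (g ^ (k + 1) • y) (g ^ (k + 1) • x) = dist x y := by rw [hG, dist_comm]
  have h6 := dist_nonneg (x := x) (y := g • x)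
  rw [← hc] at h1
  push_cast at *
  nlinarith

/-- The midpoint of `[x, g x]` is moved by the minimal amount. -/
theorem exists_dist_smul_le (hX : IsRTree X)
    (hG : ∀ (g : G) (x y : X), dist (g • x) (g • y) = dist x y) (g : G) (x : X) :
    ∃ m : X, dist m (g • m) ≤ max 0 (dist x (g • g • x) - dist x (g • x)) := by
  obtain ⟨γ, h0, h1, h2⟩ := hX.geodesic x (g • x)
  set l := dist x (g • x) with hl
  have hl0 : 0 ≤ l := dist_nonneg
  have m0 : dist x (γ (l / 2)) = l / 2 := by
    have := h2 0 ⟨le_rfl, hl0⟩ (l / 2) ⟨by linarith, by linarith⟩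
    rw [h0] at this
    rw [this, abs_sub_comm, abs_of_nonneg] <;> linarith
  have m1 : dist (γ (l / 2)) (g • x) = l / 2 := by
    have := h2 (l / 2) ⟨by linarith, by linarith⟩ l ⟨hl0, le_rfl⟩
    rw [h1] at this
    rw [this, abs_sub_comm, abs_of_nonneg] <;> linarith
  set m := γ (l / 2) with hm
  refine ⟨m, ?_⟩
  have m2 : dist (g • x) (g • m) = l / 2 := by rw [hG, m0]
  have m3 : dist (g • m) (g • g • x) = l / 2 := by rw [hG, m1]
  have m4 : dist (g • x) (g • g • x) = l := by rw [hG]
  have f1 := hX.four_point m (g • m) x (g • x)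
  have f2 := hX.four_point x (g • m) (g • x) (g • g • x)
  rw [dist_comm m x, m0, m1, dist_comm (g • m) (g • x), m2, dist_comm (g • m) x, ← hl] at f1
  rw [m4, m3, dist_comm (g • m) (g • x), m2, ← hl] at f2
  rcases le_max_iff.1 f1 with f1 | f1
  · exact le_max_of_le_left (by linarith)
  · rcases le_max_iff.1 f2 with f2 | f2
    · exact le_max_of_le_left (by linarith)
    · exact le_max_of_le_right (by linarith)

/-- The translation length formula in real trees. -/
theorem iInf_dist_smul (hX : IsRTree X)
    (hG : ∀ (g : G) (x y : X), dist (g • x) (g • y) = dist x y) (g : G) (x : X) :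
    ⨅ y : X, dist y (g • y) = max 0 (dist x (g • g • x) - dist x (g • x)) := by
  have : Nonempty X := hX.nonempty
  apply le_antisymm
  · obtain ⟨m, hm⟩ := exists_dist_smul_le hX hG g x
    refine (ciInf_le ⟨0, ?_⟩ m).trans hm
    rintro _ ⟨y, rfl⟩
    exact dist_nonneg
  · exact le_ciInf (fun y => le_dist_smul hX hG g x y)

end RTree

/-! ### From length functions to points of the closure -/

section Build

open Pool.Agent.H2

variable {N : ℕ} (Λ : LengthFn (FreeGroup (Fin N)))

theorem hull_isRTree : IsRTree Λ.Hull :=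
  ⟨⟨Λ.base⟩, LengthFn.exists_geodesic, LengthFn.four_point⟩

variable {Λ}

/-- elements which fix two distinct points are trivial -/
theorem eq_of_fix
    (h3 : ∀ g : FreeGroup (Fin N), g ≠ 1 → Λ.L (g * g) ≤ Λ.L g → ∀ a b,
      2 * Λ.L (a⁻¹ * b) ≤ Λ.L (a⁻¹ * g * a) + Λ.L (b⁻¹ * g * b))
    {g : FreeGroup (Fin N)} (hg : g ≠ 1) {p q : Λ.Hull} (hp : g • p = p) (hq : g • q = q) :
    p = q := by
  have hX := hull_isRTree Λ
  have hG := LengthFn.dist_smul_smul' (Λ := Λ)
  -- `g` is elliptic
  have hell : Λ.L (g * g) ≤ Λ.L g := by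
    have h1 := le_dist_smul hX hG g Λ.base p
    rw [hp, dist_self] at h1
    have h2 := (le_max_right _ _).trans h1
    rw [← mul_smul, LengthFn.dist_base_smul, LengthFn.dist_base_smul] at h2
    linarith
  have hL : ∀ a b : FreeGroup (Fin N), dist (a • Λ.base) (b • Λ.base) = Λ.L (a⁻¹ * b) := by
    intro a b
    rw [← LengthFn.dist_base_smul, ← hG a Λ.base, ← mul_smul, mul_inv_cancel_left]
  -- choose orbit points beyond `p` and beyond `q`
  obtain ⟨a, ha⟩ : ∃ a : FreeGroup (Fin N), Between (a • Λ.base) p q := by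
    obtain ⟨k, hk⟩ := LengthFn.exists_between p
    rcases between_or hX (x := Λ.base) (p := p) (y := k • Λ.base) hk q with h | h
    · exact ⟨1, by rwa [one_smul]⟩
    · refine ⟨k, ?_⟩
      unfold Between at *
      rw [dist_comm (k • Λ.base) p, dist_comm (k • Λ.base) q, dist_comm p q]
      linarith
  obtain ⟨b, hb⟩ : ∃ b : FreeGroup (Fin N), Between (a • Λ.base) q (b • Λ.base) := by
    obtain ⟨k, hk⟩ := LengthFn.exists_between q
    rcases between_or hX (x := Λ.base) (p := q) (y := k • Λ.base) hk (a • Λ.base) with h | h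
    · refine ⟨1, ?_⟩
      rw [one_smul]
      unfold Between at *
      rw [dist_comm (a • Λ.base) q, dist_comm (a • Λ.base) Λ.base, dist_comm q Λ.base]
      linarith
    · exact ⟨k, h⟩
  unfold Between at ha hb
  have h4 := h3 g hg hell a b
  have fix : ∀ (r : Λ.Hull) (c : FreeGroup (Fin N)), g • r = r →
      Λ.L (c⁻¹ * g * c) ≤ 2 * dist (c • Λ.base) r := by
    intro r c hr
    have e : dist (c • Λ.base) (g • c • Λ.base) = Λ.L (c⁻¹ * g * c) := by
      rw [← mul_smul, hL, mul_assoc]
    have t := dist_triangle (c • Λ.base) r (g • c • Λ.base)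
    have e2 : dist r (g • c • Λ.base) = dist (c • Λ.base) r := by
      conv_lhs => rw [← hr]
      rw [hG, dist_comm]
    linarith
  have f1 := fix p a hp
  have f2 := fix q b hq
  have e3 := hL a b
  rw [dist_comm (b • Λ.base) q] at f2
  have : dist p q ≤ 0 := by linarith
  exact dist_le_zero.1 this

/-- The point of the closure defined by a length function with suitable properties. -/
noncomputable def build (Λ : LengthFn (FreeGroup (Fin N)))
    (h2 : ∃ u : FreeGroup (Fin N), u ≠ 1 ∧ ∀ b, Λ.L (b⁻¹ * u * b) = 2 * Λ.L b)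
    (h3 : ∀ g : FreeGroup (Fin N), g ≠ 1 → Λ.L (g * g) ≤ Λ.L g → ∀ a b,
      2 * Λ.L (a⁻¹ * b) ≤ Λ.L (a⁻¹ * g * a) + Λ.L (b⁻¹ * g * b))
    (h4 : ∃ t : FreeGroup (Fin N), 0 < Λ.L t) : ClosedOuterPoint N where
  X := Λ.Hull
  isRTree := hull_isRTree Λ
  isometric := LengthFn.dist_smul_smul'
  minimal := by
    obtain ⟨u, hu1, hu⟩ := h2
    have hG := LengthFn.dist_smul_smul' (Λ := Λ)
    have hL : ∀ a b : FreeGroup (Fin N), dist (a • Λ.base) (b • Λ.base) = Λ.L (a⁻¹ * b) := by
      intro a b
      rw [← LengthFn.dist_base_smul, ← hG a Λ.base, ← mul_smul, mul_inv_cancel_left]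
    have hub : u • Λ.base = Λ.base := by
      have h := hu 1
      rw [Λ.one, mul_one, inv_one, one_mul, mul_zero, ← LengthFn.dist_base_smul] at h
      exact (dist_eq_zero.1 h).symm
    intro Y hY hinv hconv
    obtain ⟨y, hy⟩ := hY
    have hbase : Λ.base ∈ Y := by
      apply hconv y hy (u • y) (hinv u y hy)
      obtain ⟨b, hb⟩ := LengthFn.exists_between y
      unfold Between
      have e1 : dist Λ.base (u • y) = dist Λ.base y := by
        conv_lhs => rw [← hub]
        rw [hG]
      have e2 : dist (b • Λ.base) (u • b • Λ.base) = 2 * Λ.L b := by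
        rw [← mul_smul, hL, ← mul_assoc, hu]
      have t1 := dist_triangle (b • Λ.base) y (u • b • Λ.base)
      have t2 := dist_triangle y (u • y) (u • b • Λ.base)
      have e3 : dist (u • y) (u • b • Λ.base) = dist y (b • Λ.base) := hG _ _ _
      have t3 := dist_triangle y Λ.base (u • y)
      rw [LengthFn.dist_base_smul] at hb
      rw [dist_comm (b • Λ.base) y] at t1
      rw [dist_comm y Λ.base] at t3 ⊢
      linarith
    apply Set.eq_univ_of_forall
    intro x
    obtain ⟨k, hk⟩ := LengthFn.exists_between x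
    exact hconv _ hbase _ (hinv k _ hbase) x hk
  nontrivial := by
    rintro ⟨z, hz⟩
    obtain ⟨u, hu1, hu⟩ := h2
    obtain ⟨t, ht⟩ := h4
    have hub : u • Λ.base = Λ.base := by
      have h := hu 1
      rw [Λ.one, mul_one, inv_one, one_mul, mul_zero, ← LengthFn.dist_base_smul] at h
      exact (dist_eq_zero.1 h).symm
    have hzb : z = Λ.base := eq_of_fix h3 hu1 (hz u) hub
    have h5 := hz t
    rw [hzb] at h5
    have h6 := LengthFn.dist_base_smul (Λ := Λ) t
    rw [h5, dist_self] at h6
    linarith
  arcs := by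
    intro x y hxy
    left
    rw [Subgroup.eq_bot_iff_forall]
    intro g hg
    rw [Subgroup.mem_inf, MulAction.mem_stabilizer_iff, MulAction.mem_stabilizer_iff] at hg
    by_contra hg1
    exact hxy (eq_of_fix h3 hg1 hg.1 hg.2)
  tripods := by
    intro x y z hxyz _ _
    have hxy : x ≠ y := by
      rintro rfl
      apply hxyz
      unfold Between
      rw [dist_self, zero_add]
    rw [Subgroup.eq_bot_iff_forall]
    intro g hg
    rw [Subgroup.mem_inf, Subgroup.mem_inf, MulAction.mem_stabilizer_iff,
      MulAction.mem_stabilizer_iff] at hg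
    by_contra hg1
    exact hxy (eq_of_fix h3 hg1 hg.1.1 hg.1.2)

theorem build_len (Λ : LengthFn (FreeGroup (Fin N))) (h2) (h3) (h4) (g : FreeGroup (Fin N)) :
    (build Λ h2 h3 h4).len g = max 0 (Λ.L (g * g) - Λ.L g) := by
  have h := iInf_dist_smul (hull_isRTree Λ) (LengthFn.dist_smul_smul' (Λ := Λ)) g Λ.base
  rw [← mul_smul, LengthFn.dist_base_smul, LengthFn.dist_base_smul] at h
  exact h

/-- The point of the closure defined by an injective homomorphism to a weighted free group. -/
theorem exists_point {κ : Type} [DecidableEq κ] {ℓ : κ → ℝ} (hℓ : ∀ i, 0 ≤ ℓ i)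
    (θ : FreeGroup (Fin N) →* FreeGroup κ) (hθ : Function.Injective θ)
    (h2 : ∃ u : FreeGroup (Fin N), u ≠ 1 ∧ flen ℓ (θ u) = 0)
    (h4 : ∃ t : FreeGroup (Fin N), 0 < flen ℓ (θ t)) :
    ∃ T : ClosedOuterPoint N, ∀ g,
      T.len g = max 0 (flen ℓ (θ (g * g)) - flen ℓ (θ g)) := by
  have hne : ∀ u : FreeGroup (Fin N), u ≠ 1 → θ u ≠ 1 := by
    intro u hu h
    exact hu (hθ (by rw [h, map_one]))
  refine ⟨build (indLen hℓ θ) ?_ ?_ h4, fun g => build_len _ _ _ _ g⟩
  · obtain ⟨u, hu1, hu⟩ := h2
    refine ⟨u, hu1, fun b => ?_⟩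
    have := flen_conj' hℓ (θ b) (θ u) (hne u hu1) hu
    rw [← map_inv, ← map_mul, ← map_mul] at this
    exact this
  · intro g hg hle a b
    have h := flen_two_point hℓ (θ g) (hne g hg) (by rw [← map_mul]; exact hle) (θ a) (θ b)
    simp only [← map_inv, ← map_mul] at h
    exact h

end Build

/-! ### The main result -/

/-- **Main result.** For every `N ≥ 2` there is a point `T` of the closure of unprojectivised
Outer space of rank `N` which is not pinned down by any finite set `S` of elements of the free
group of rank `N`. -/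
theorem result (N : ℕ) (hN : 2 ≤ N) :
    ∃ T : ClosedOuterPoint N, ∀ S : Set (FreeGroup (Fin N)), S.Finite →
      ¬ ClosedOuterPoint.PinsDown S T := by
  classical
  set i0 : Fin N := ⟨0, by omega⟩ with hi0
  set i1 : Fin N := ⟨1, by omega⟩ with hi1
  have h01 : i1 ≠ i0 := by
    rw [hi0, hi1, Ne, Fin.mk.injEq]
    norm_num
  have hT := exists_point (N := N) (Pool.Agent.H2.wT_nonneg i0) (MonoidHom.id _)
    Function.injective_id
    ⟨FreeGroup.of i1, FreeGroup.of_ne_one _, by
      rw [MonoidHom.id_apply, Pool.Agent.H2.flen, FreeGroup.toWord_of]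
      simp [Pool.Agent.H2.wt, Pool.Agent.H2.wT, h01]⟩
    ⟨FreeGroup.of i0, by
      rw [MonoidHom.id_apply, Pool.Agent.H2.flen, FreeGroup.toWord_of]
      simp [Pool.Agent.H2.wt, Pool.Agent.H2.wT]⟩
  obtain ⟨T, hT⟩ := hT
  refine ⟨T, fun S hS hpin => ?_⟩
  -- choose `n` larger than twice all the norms of elements of `S`
  obtain ⟨n, hn⟩ : ∃ n : ℕ, ∀ g ∈ S, 2 * FreeGroup.norm g < n := by
    obtain ⟨m, hm⟩ := (hS.image (fun g => 2 * FreeGroup.norm g)).bddAbove
    exact ⟨m + 1, fun g hg => Nat.lt_succ_of_le (hm ⟨g, hg, rfl⟩)⟩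
  have hT' := exists_point (N := N) Pool.Agent.H2.wS_nonneg (Pool.Agent.H2.theta i0 i1 n)
    (Pool.Agent.H2.theta_injective i0 i1 n h01)
    ⟨FreeGroup.of i1, FreeGroup.of_ne_one _, by
      rw [Pool.Agent.H2.theta_ne i0 i1 n h01]
      exact Pool.Agent.H2.flen_isA (Pool.Agent.H2.isA_of h01)⟩
    ⟨FreeGroup.of i0 * (FreeGroup.of i1 ^ n)⁻¹, by
      rw [(Pool.Agent.H2.flen_theta_elliptic n h01).1]
      norm_num⟩
  obtain ⟨T', hT'⟩ := hT'
  have hsame : T'.Same T := by
    apply hpin
    intro g hg
    have h1 := hn g hg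
    have h2 := FreeGroup.norm_mul_le g g
    rw [hT, hT', Pool.Agent.H2.flen_theta_eq h01 n g (by omega),
      Pool.Agent.H2.flen_theta_eq h01 n (g * g) (by omega)]
    rfl
  have h1 := hsame.len_eq (FreeGroup.of i0 * (FreeGroup.of i1 ^ n)⁻¹)
  rw [hT, hT', (Pool.Agent.H2.flen_theta_elliptic n h01).1,
    (Pool.Agent.H2.flen_theta_elliptic n h01).2, MonoidHom.id_apply, MonoidHom.id_apply,
    (Pool.Agent.H2.flen_hyperbolic n h01).1, (Pool.Agent.H2.flen_hyperbolic n h01).2] at h1
  norm_num at h1

end Pool.Agent.Results.MP_93ccfe_al.NoFinitePinning
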